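import Pool.Agent.Lib.MP_00d8cd_co.Root

set_option autoImplicit false

/-!
# Every nice connected graph with `m` edges has an irregularising walk of length at most `3m`

In fact there is a closed irregularising walk of length at most `3(m-1)`.
-/

namespace Pool.Agent.Results.MP_00d8cd_co.ThreeTimesSize

open Finset

variable {V : Type*} {G : SimpleGraph V}

open Classical in
/-- `t_W(e)`: the number of times the walk `W` traverses the edge `e`. -/
noncomputable def traversals {u v : V} (W : G.Walk u v) (e : Sym2 V) : ℕ := W.edges.count e

/-- The degree of `x` in the multigraph `G + W`: the degree of `x` in `G` plus the sum of `t_W(e)`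
over the edges `e` of `G` incident with `x`. -/
noncomputable def degreeAdd {u v : V} (W : G.Walk u v) (x : V) : ℕ :=
  (G.neighborSet x).ncard + ∑ᶠ e ∈ G.incidenceSet x, traversals W e

/-- `W` is an irregularising walk: in `G + W` adjacent vertices have different degrees. -/
def IsIrregularising {u v : V} (W : G.Walk u v) : Prop :=
  ∀ x y : V, G.Adj x y → degreeAdd W x ≠ degreeAdd W y

theorem sum_count_eq [Fintype V] [DecidableEq V] [DecidableRel G.Adj] (x : V)
    (l : List (Sym2 V)) (hl : ∀ e ∈ l, e ∈ G.edgeSet) :
    ∑ e ∈ G.incidenceFinset x, l.count e = l.countP (fun e => decide (x ∈ e)) := by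
  induction l with
  | nil => simp
  | cons a l ih =>
    have ih' := ih (fun e he => hl e (List.mem_cons_of_mem _ he))
    have ha := hl a List.mem_cons_self
    simp only [List.count_cons, List.countP_cons, decide_eq_true_eq, beq_iff_eq]
    rw [sum_add_distrib, ih', sum_ite_eq]
    congr 1
    have : (a ∈ G.incidenceFinset x) ↔ x ∈ a := by
      rw [SimpleGraph.mem_incidenceFinset]
      exact ⟨fun h => h.2, fun h => ⟨ha, h⟩⟩
    simp only [this]

theorem degreeAdd_eq [Fintype V] [DecidableEq V] [DecidableRel G.Adj] {u v : V}
    (W : G.Walk u v) (x : V) :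
    degreeAdd W x = G.degree x + Pool.Agent.Lib.MP_00d8cd_co.inc W x := by
  unfold degreeAdd Pool.Agent.Lib.MP_00d8cd_co.inc
  congr 1
  · rw [Set.ncard_eq_toFinset_card', ← SimpleGraph.card_neighborFinset_eq_degree]
    rfl
  · rw [← sum_count_eq (G := G) x W.edges (fun e he => W.edges_subset_edgeSet he),
      ← finsum_mem_coe_finset]
    simp only [SimpleGraph.coe_incidenceFinset]
    refine finsum_congr (fun e => finsum_congr (fun _ => ?_))
    unfold traversals
    have key : ∀ (d₁ d₂ : DecidableEq (Sym2 V)),
        @List.count _ (@instBEqOfDecidableEq _ d₁) e W.edges =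
          @List.count _ (@instBEqOfDecidableEq _ d₂) e W.edges := by
      intro d₁ d₂
      rw [Subsingleton.elim d₁ d₂]
    exact key _ _

/-- Every nice (that is, not isomorphic to `K₂`) finite connected graph with `m` edges has an
irregularising walk of length at most `3(m-1)`, hence at most `3m`; the walk can be taken
closed. -/
theorem result {V : Type*} [Finite V] (G : SimpleGraph V) (hG : G.Connected)
    (hnice : ¬ Nonempty (G ≃g (⊤ : SimpleGraph (Fin 2)))) :
    ∃ (u : V) (W : G.Walk u u), IsIrregularising W ∧ W.length ≤ 3 * (G.edgeSet.ncard - 1) := by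
  classical
  have := Fintype.ofFinite V
  have hpos : 0 < Fintype.card V := Fintype.card_pos_iff.mpr hG.nonempty
  rcases Nat.lt_or_ge (Fintype.card V) 3 with h3 | h3
  · by_cases h2 : Fintype.card V = 2
    · exfalso
      apply hnice
      have e := Fintype.equivFinOfCardEq h2
      refine ⟨⟨e, ?_⟩⟩
      intro a b
      simp only [SimpleGraph.top_adj, ne_eq, EmbeddingLike.apply_eq_iff_eq]
      constructor
      · intro hab
        have hnt : Nontrivial V := Fintype.one_lt_card_iff_nontrivial.mp (by omega)
        obtain ⟨c, hc⟩ := hG.preconnected.exists_adj_of_nontrivial a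
        have : c = b := by
          by_contra hcb
          have h3 : ({a, b, c} : Finset V).card = 3 := by
            rw [card_insert_of_notMem, card_insert_of_notMem, card_singleton]
            · simpa using fun h => hcb h.symm
            · simp only [mem_insert, mem_singleton, not_or]
              exact ⟨hab, hc.ne⟩
          have := card_le_univ ({a, b, c} : Finset V)
          omega
        exact this ▸ hc
      · intro h
        exact h.ne
    · have h1 : Fintype.card V = 1 := by omega
      obtain ⟨x, hx⟩ := Fintype.card_eq_one_iff.mp h1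
      refine ⟨x, SimpleGraph.Walk.nil, ?_, by simp⟩
      intro a b hab
      rw [hx a, hx b] at hab
      exact absurd hab (SimpleGraph.irrefl G)
  · obtain ⟨c, W, h1, h2⟩ := Pool.Agent.Lib.MP_00d8cd_co.exists_walk hG h3
    refine ⟨c, W, ?_, ?_⟩
    · intro a b hab
      rw [degreeAdd_eq, degreeAdd_eq]
      exact h1 a b hab
    · rw [Set.ncard_eq_toFinset_card']
      exact h2

end Pool.Agent.Results.MP_00d8cd_co.ThreeTimesSize
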